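import Mathlib

/-!
# Arcs in no directed triangle and non-adjacent pairs at distance two

`Tri r v`: the out-neighbours `w` of `v` such that the arc `v → w` lies in no directed triangle.
`Mid r v`: the vertices not adjacent to `v` that are reached from `v` by a directed path of length two.
The inequality `∑ |Tri r v| ≤ ∑ |Mid r v|` is equivalent to the inequality of the second neighbourhood sum.
-/

set_option autoImplicit false

namespace Pool.Agent.Lib.H93M

open Finset
open scoped Classical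

variable {V : Type} [Fintype V]

/-- The out-neighbours of `v`. -/
noncomputable def Out (r : V → V → Prop) (v : V) : Finset V := univ.filter fun w => r v w

/-- The heads of the arcs at `v` that lie in no directed triangle. -/
noncomputable def Tri (r : V → V → Prop) (v : V) : Finset V :=
  univ.filter fun w => r v w ∧ ∀ u, r w u → ¬ r u v

/-- The vertices outside `Out r v` dominated by a member of `Tri r v`. -/
noncomputable def Zed (r : V → V → Prop) (v : V) : Finset V :=
  univ.filter fun x => ¬ r v x ∧ ∃ w ∈ Tri r v, r w x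

/-- The vertices not adjacent to `v` at distance two from `v`. -/
noncomputable def Mid (r : V → V → Prop) (v : V) : Finset V :=
  univ.filter fun x => ¬ r v x ∧ ¬ r x v ∧ ∃ w, r v w ∧ r w x

variable {r : V → V → Prop}

theorem mem_Out {v w : V} : w ∈ Out r v ↔ r v w := by
  simp [Out]

theorem mem_Tri {v w : V} : w ∈ Tri r v ↔ r v w ∧ ∀ u, r w u → ¬ r u v := by
  simp [Tri]

theorem mem_Zed {v x : V} : x ∈ Zed r v ↔ ¬ r v x ∧ ∃ w ∈ Tri r v, r w x := by
  simp [Zed]

theorem mem_Mid {v x : V} : x ∈ Mid r v ↔ ¬ r v x ∧ ¬ r x v ∧ ∃ w, r v w ∧ r w x := by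
  simp [Mid]

theorem not_adj_of_mem_Zed {v x : V} (h : x ∈ Zed r v) : ¬ r v x ∧ ¬ r x v := by
  obtain ⟨h1, w, hw, hwx⟩ := mem_Zed.1 h
  exact ⟨h1, (mem_Tri.1 hw).2 x hwx⟩

theorem Zed_subset_Mid (v : V) : Zed r v ⊆ Mid r v := by
  intro x hx
  obtain ⟨h1, w, hw, hwx⟩ := mem_Zed.1 hx
  exact mem_Mid.2 ⟨h1, (mem_Tri.1 hw).2 x hwx, w, (mem_Tri.1 hw).1, hwx⟩

/-- The basic inequality at an arc in no directed triangle. -/
theorem card_diff {v w : V} {d : ℕ} (hd : (Out r v).card ≤ (Out r w).card + d) :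
    ((Tri r v).filter fun u => ¬ r w u).card ≤ (Out r w \ Out r v).card + d := by
  have h1 : ((Tri r v).filter fun u => ¬ r w u) ⊆ Out r v \ Out r w := by
    intro u hu
    rw [mem_filter, mem_Tri] at hu
    rw [mem_sdiff, mem_Out, mem_Out]
    exact ⟨hu.1.1, hu.2⟩
  have h2 := Finset.card_le_card h1
  have h3 := Finset.card_sdiff_add_card_inter (Out r v) (Out r w)
  have h4 := Finset.card_sdiff_add_card_inter (Out r w) (Out r v)
  rw [Finset.inter_comm] at h4
  omega

/-- Double counting of the paths `v → w → x` with `w ∈ Tri r v` and `x` not an out-neighbour of `v`. -/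
theorem double_count (v : V) :
    ∑ w ∈ Tri r v, (Out r w \ Out r v).card =
      ∑ x ∈ Zed r v, ((Tri r v).filter fun w => r w x).card := by
  have h := Finset.sum_card_bipartiteAbove_eq_sum_card_bipartiteBelow (s := Tri r v) (t := Zed r v) r
  unfold Finset.bipartiteAbove Finset.bipartiteBelow at h
  rw [← h]
  refine Finset.sum_congr rfl fun w hw => ?_
  congr 1
  ext x
  rw [mem_sdiff, mem_Out, mem_Out, mem_filter, mem_Zed]
  constructor
  · rintro ⟨h1, h2⟩
    exact ⟨⟨h2, w, hw, h1⟩, h1⟩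
  · rintro ⟨⟨h1, _⟩, h2⟩
    exact ⟨h2, h1⟩

omit [Fintype V] in
/-- Counting the pairs of a finite set of vertices of an oriented graph. -/
theorem pair_count (hr : ∀ u v, r u v → ¬ r v u) (s : Finset V) :
    s.card * s.card + ((s ×ˢ s).filter fun z => ¬ r z.1 z.2 ∧ ¬ r z.2 z.1).card =
      2 * ∑ w ∈ s, (s.filter fun u => ¬ r w u).card := by
  have h1 : ∑ w ∈ s, (s.filter fun u => ¬ r w u).card =
      ((s ×ˢ s).filter fun z => ¬ r z.1 z.2).card := by
    rw [Finset.card_filter, Finset.sum_product]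
    exact Finset.sum_congr rfl fun w _ => Finset.card_filter _ _
  have h2 : ∑ w ∈ s, (s.filter fun u => ¬ r w u).card =
      ((s ×ˢ s).filter fun z => ¬ r z.2 z.1).card := by
    rw [Finset.card_filter, Finset.sum_product_right]
    exact Finset.sum_congr rfl fun w _ => Finset.card_filter _ _
  have h3 := Finset.card_union_add_card_inter ((s ×ˢ s).filter fun z => ¬ r z.1 z.2)
    ((s ×ˢ s).filter fun z => ¬ r z.2 z.1)
  rw [← Finset.filter_or, ← Finset.filter_and] at h3
  have h4 : ((s ×ˢ s).filter fun z => ¬ r z.1 z.2 ∨ ¬ r z.2 z.1) = s ×ˢ s := by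
    refine Finset.filter_true_of_mem fun z _ => ?_
    by_cases h : r z.1 z.2
    · exact Or.inr (hr _ _ h)
    · exact Or.inl h
  rw [h4, Finset.card_product] at h3
  omega

/-- The arithmetic of the star. -/
theorem arith {q p d s : ℕ} (h : q * q + p * p ≤ 2 * (d * p + s * q)) : q ≤ d + 2 * s := by
  by_contra hc
  push Not at hc
  zify at h hc
  have h1 : (q : ℤ) * (d + 2 * s + 1) ≤ q * q := mul_le_mul_of_nonneg_left (by omega) (by positivity)
  have h2 : (p : ℤ) * p + q + q * d ≤ 2 * (d * p) := by nlinarith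
  have h3 : 0 < (d : ℤ) * (2 * p - q) := by
    have : (0 : ℤ) < q := by omega
    nlinarith
  have h4 : 0 < (2 * p - q : ℤ) := by
    by_contra h5
    have : (d : ℤ) * (2 * p - q) ≤ 0 := mul_nonpos_of_nonneg_of_nonpos (by positivity) (by omega)
    omega
  have h6 : (d : ℤ) * (2 * p - q) ≤ q * (2 * p - q) :=
    mul_le_mul_of_nonneg_right (by omega) (by omega)
  nlinarith [sq_nonneg ((p : ℤ) - q)]

/-- The star inequality: `|Tri r v| ≤ |D| + 2 |S| + 2 d`, where `d` bounds the decrease of the out-degree along the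
arcs `v → w`, `w ∈ Tri r v`, where `D` is the set of the members `x` of `Zed r v` with
`v ∈ Zed r x` for which the members of `Tri r v` dominating `x` are pairwise non-adjacent, and `S` is the rest of
`Zed r v`. -/
theorem star (hr : ∀ u v, r u v → ¬ r v u) (v : V) (d : ℕ)
    (hdeg : ∀ w ∈ Tri r v, (Out r v).card ≤ (Out r w).card + d) (C : V → Prop)
    (hfree : ∀ x ∈ Zed r v, C x → ∀ w₁ ∈ Tri r v, ∀ w₂ ∈ Tri r v, r w₁ x → r w₂ x → ¬ r w₁ w₂) :
    (Tri r v).card ≤ ((Zed r v).filter fun x => C x).card +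
      2 * (((Zed r v).filter fun x => ¬ C x).card + d) := by
  set D := (Zed r v).filter fun x => C x with hD
  set S := (Zed r v).filter fun x => ¬ C x with hS
  set f : V → ℕ := fun x => ((Tri r v).filter fun w => r w x).card with hf
  set p := D.sup f with hp
  have h1 : (Tri r v).card * (Tri r v).card +
      ((Tri r v ×ˢ Tri r v).filter fun z => ¬ r z.1 z.2 ∧ ¬ r z.2 z.1).card ≤
      2 * (∑ x ∈ Zed r v, f x + d * (Tri r v).card) := by
    rw [pair_count hr, ← double_count]
    refine Nat.mul_le_mul_left 2 (le_trans (Finset.sum_le_sum fun w hw => card_diff (hdeg w hw)) ?_)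
    rw [Finset.sum_add_distrib, Finset.sum_const, smul_eq_mul, Nat.mul_comm d]
  have h2 : ∑ x ∈ Zed r v, f x ≤ D.card * p + S.card * (Tri r v).card := by
    rw [← Finset.sum_filter_add_sum_filter_not (Zed r v) (fun x => C x)]
    refine Nat.add_le_add ?_ ?_
    · refine le_trans (Finset.sum_le_card_nsmul _ _ p fun x hx => Finset.le_sup hx) ?_
      rw [smul_eq_mul]
    · refine le_trans (Finset.sum_le_card_nsmul _ _ (Tri r v).card fun x _ => ?_) ?_
      · exact Finset.card_filter_le _ _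
      · rw [smul_eq_mul]
  have h3 : p * p ≤ ((Tri r v ×ˢ Tri r v).filter fun z => ¬ r z.1 z.2 ∧ ¬ r z.2 z.1).card := by
    rcases D.eq_empty_or_nonempty with hE | hN
    · rw [hp, hE, Finset.sup_empty]
      simp
    · obtain ⟨x, hx, hxp⟩ := Finset.exists_mem_eq_sup D hN f
      rw [hp, hxp]
      have h4 : ((Tri r v).filter fun w => r w x) ×ˢ ((Tri r v).filter fun w => r w x) ⊆
          (Tri r v ×ˢ Tri r v).filter fun z => ¬ r z.1 z.2 ∧ ¬ r z.2 z.1 := by
        intro z hz
        rw [mem_product, mem_filter, mem_filter] at hz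
        rw [mem_filter, mem_product]
        obtain ⟨⟨a1, a2⟩, b1, b2⟩ := hz
        have hx' := mem_filter.1 hx
        exact ⟨⟨a1, b1⟩, hfree x hx'.1 hx'.2 _ a1 _ b1 a2 b2, hfree x hx'.1 hx'.2 _ b1 _ a1 b2 a2⟩
      have h5 := Finset.card_le_card h4
      rw [Finset.card_product] at h5
      exact h5
  refine arith (p := p) (le_trans (Nat.add_le_add_left h3 _) (le_trans h1 (Nat.mul_le_mul_left 2 ?_)))
  rw [Nat.add_mul, ← Nat.add_assoc]
  exact Nat.add_le_add_right h2 _

/-- The members `x` of `Zed r v` from which `v` is not reached in two steps. -/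
noncomputable def One (r : V → V → Prop) (v : V) : Finset V :=
  (Zed r v).filter fun x => ¬ ∃ u, r x u ∧ r u v

/-- The members `x` of `Zed r v` with `v ∈ Zed r x` dominated by two adjacent members of `Tri r v`. -/
noncomputable def Bad (r : V → V → Prop) (v : V) : Finset V :=
  (Zed r v).filter fun x => v ∈ Zed r x ∧ ∃ a ∈ Tri r v, ∃ b ∈ Tri r v, r a b ∧ r a x ∧ r b x

/-- The number of arcs in no directed triangle with tail in `A` is at most the number of non-adjacent ordered
pairs at distance two in `A`, up to the pairs counted by `One` and `Bad` and up to the decrease of the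
out-degrees along these arcs. -/
theorem total (hr : ∀ u v, r u v → ¬ r v u) (A : Finset V) (hA : ∀ v ∈ A, Zed r v ⊆ A) (d : V → ℕ)
    (hdeg : ∀ v, ∀ w ∈ Tri r v, (Out r v).card ≤ (Out r w).card + d v) :
    ∑ v ∈ A, (Tri r v).card ≤ ∑ v ∈ A, (Mid r v).card + ∑ v ∈ A, (One r v).card +
      ∑ v ∈ A, (Bad r v).card + 2 * ∑ v ∈ A, d v := by
  have h1 : ∑ v ∈ A, (Tri r v).card ≤ ∑ v ∈ A, ((Zed r v).card +
      ((Zed r v).filter fun x => v ∉ Zed r x ∧ ∃ u, r x u ∧ r u v).card +
      (One r v).card + (Bad r v).card + 2 * d v) := by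
    refine Finset.sum_le_sum fun v _ => ?_
    obtain ⟨C, hC⟩ : ∃ C : V → Prop, ∀ x, C x ↔
        (v ∈ Zed r x ∧ ¬ ∃ a ∈ Tri r v, ∃ b ∈ Tri r v, r a b ∧ r a x ∧ r b x) :=
      ⟨_, fun _ => Iff.rfl⟩
    have h2 := star hr v (d v) (hdeg v) C
      (fun x _ hx w₁ hw₁ w₂ hw₂ h1x h2x h12 => ((hC x).1 hx).2 ⟨w₁, hw₁, w₂, hw₂, h12, h1x, h2x⟩)
    have h3 : ((Zed r v).filter fun x => C x).card + ((Zed r v).filter fun x => ¬ C x).card =
        (Zed r v).card := Finset.card_filter_add_card_filter_not _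
    have h4 : ((Zed r v).filter fun x => ¬ C x) ⊆
        (((Zed r v).filter fun x => v ∉ Zed r x ∧ ∃ u, r x u ∧ r u v) ∪ One r v) ∪ Bad r v := by
      intro x hx
      obtain ⟨hx1, hx2⟩ := mem_filter.1 hx
      rw [mem_union, mem_union]
      by_cases a : v ∈ Zed r x
      · by_cases b : ∃ a ∈ Tri r v, ∃ b ∈ Tri r v, r a b ∧ r a x ∧ r b x
        · exact Or.inr (mem_filter.2 ⟨hx1, a, b⟩)
        · exact absurd ((hC x).2 ⟨a, b⟩) hx2
      · by_cases b : ∃ u, r x u ∧ r u v
        · exact Or.inl (Or.inl (mem_filter.2 ⟨hx1, a, b⟩))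
        · exact Or.inl (Or.inr (mem_filter.2 ⟨hx1, b⟩))
    have h5 := Finset.card_le_card h4
    have h6 := Finset.card_union_le
      (((Zed r v).filter fun x => v ∉ Zed r x ∧ ∃ u, r x u ∧ r u v) ∪ One r v) (Bad r v)
    have h7 := Finset.card_union_le
      ((Zed r v).filter fun x => v ∉ Zed r x ∧ ∃ u, r x u ∧ r u v) (One r v)
    omega
  refine le_trans h1 ?_
  rw [Finset.sum_add_distrib, Finset.sum_add_distrib, Finset.sum_add_distrib, Finset.sum_add_distrib,
    ← Finset.mul_sum]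
  have h4 : ∑ v ∈ A, ((Zed r v).filter fun x => v ∉ Zed r x ∧ ∃ u, r x u ∧ r u v).card =
      ∑ x ∈ A, (A.filter fun v => x ∈ Zed r v ∧ v ∉ Zed r x ∧ ∃ u, r x u ∧ r u v).card := by
    have h5 := Finset.sum_card_bipartiteAbove_eq_sum_card_bipartiteBelow (s := A)
      (t := A) (fun v x => x ∈ Zed r v ∧ v ∉ Zed r x ∧ ∃ u, r x u ∧ r u v)
    unfold Finset.bipartiteAbove Finset.bipartiteBelow at h5
    rw [← h5]
    refine Finset.sum_congr rfl fun v hv => ?_
    congr 1
    ext x
    simp only [mem_filter]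
    constructor
    · rintro ⟨a1, a2⟩
      exact ⟨hA v hv a1, a1, a2⟩
    · rintro ⟨_, a1, a2⟩
      exact ⟨a1, a2⟩
  have h8 : ∑ x ∈ A, (Zed r x).card +
      ∑ x ∈ A, (A.filter fun v => x ∈ Zed r v ∧ v ∉ Zed r x ∧ ∃ u, r x u ∧ r u v).card ≤
      ∑ x ∈ A, (Mid r x).card := by
    rw [← Finset.sum_add_distrib]
    refine Finset.sum_le_sum fun x _ => ?_
    have h6 : Disjoint (Zed r x)
        (A.filter fun v => x ∈ Zed r v ∧ v ∉ Zed r x ∧ ∃ u, r x u ∧ r u v) := by
      rw [Finset.disjoint_left]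
      intro v hv hv2
      exact (mem_filter.1 hv2).2.2.1 hv
    rw [← Finset.card_union_of_disjoint h6]
    refine Finset.card_le_card (Finset.union_subset (Zed_subset_Mid x) ?_)
    intro v hv
    obtain ⟨_, hv2, _, u, hu1, hu2⟩ := mem_filter.1 hv
    have h7 := not_adj_of_mem_Zed hv2
    exact mem_Mid.2 ⟨h7.2, h7.1, u, hu1, hu2⟩
  omega

/-- The pairs at distance two: non-adjacent ones and reversed arcs in a directed triangle. -/
theorem second (hr : ∀ u v, r u v → ¬ r v u) (v : V) :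
    (univ.filter fun w => w ≠ v ∧ ¬ r v w ∧ ∃ u, r v u ∧ r u w).card + (Tri (fun a b => r b a) v).card =
      (Mid r v).card + (Out (fun a b => r b a) v).card := by
  have h1 : (univ.filter fun w => w ≠ v ∧ ¬ r v w ∧ ∃ u, r v u ∧ r u w).card =
      (Mid r v).card + (univ.filter fun w => r w v ∧ ∃ u, r v u ∧ r u w).card := by
    have h2 : Disjoint (Mid r v) (univ.filter fun w => r w v ∧ ∃ u, r v u ∧ r u w) := by
      rw [Finset.disjoint_left]
      intro w hw hw2
      exact (mem_Mid.1 hw).2.1 (mem_filter.1 hw2).2.1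
    rw [← Finset.card_union_of_disjoint h2]
    congr 1
    ext w
    rw [mem_union, mem_Mid, mem_filter, mem_filter]
    constructor
    · rintro ⟨_, _, a2, a3⟩
      by_cases h3 : r w v
      · exact Or.inr ⟨mem_univ _, h3, a3⟩
      · exact Or.inl ⟨a2, h3, a3⟩
    · rintro (⟨a1, a2, u, hu1, hu2⟩ | ⟨_, a1, u, hu1, hu2⟩)
      · refine ⟨mem_univ _, ?_, a1, u, hu1, hu2⟩
        rintro rfl
        exact hr _ _ hu1 hu2
      · refine ⟨mem_univ _, ?_, hr _ _ a1, u, hu1, hu2⟩
        rintro rfl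
        exact hr _ _ hu1 hu2
  have h6 : (univ.filter fun w => r w v ∧ ∃ u, r v u ∧ r u w).card + (Tri (fun a b => r b a) v).card =
      (Out (fun a b => r b a) v).card := by
    have h7 : Disjoint (univ.filter fun w => r w v ∧ ∃ u, r v u ∧ r u w) (Tri (fun a b => r b a) v) := by
      rw [Finset.disjoint_left]
      intro w hw hw2
      obtain ⟨_, u, hu1, hu2⟩ := (mem_filter.1 hw).2
      exact (mem_Tri.1 hw2).2 u hu2 hu1
    rw [← Finset.card_union_of_disjoint h7]
    congr 1
    ext w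
    rw [mem_union, mem_Tri, mem_filter, mem_Out]
    constructor
    · rintro (⟨_, a1, _⟩ | ⟨a1, _⟩)
      · exact a1
      · exact a1
    · intro a1
      by_cases h8 : ∃ u, r v u ∧ r u w
      · exact Or.inl ⟨mem_univ _, a1, h8⟩
      · refine Or.inr ⟨a1, fun u hu1 hu2 => h8 ⟨u, hu2, hu1⟩⟩
  omega

/-- Transitive non-adjacency and equal out-degrees of non-adjacent vertices. -/
theorem total_multipartite (hr : ∀ u v, r u v → ¬ r v u)
    (heq : ∀ v x, ¬ r v x → ¬ r x v → (Out r v).card = (Out r x).card)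
    (htrans : ∀ u v w, ¬ r u v → ¬ r v u → ¬ r v w → ¬ r w v → ¬ r u w)
    (A : Finset V) (hA : ∀ v ∈ A, ∀ x, ¬ r v x → ¬ r x v → x ∈ A) (d : V → ℕ)
    (hdeg : ∀ v, ∀ w ∈ Tri r v, (Out r v).card ≤ (Out r w).card + d v) :
    ∑ v ∈ A, (Tri r v).card ≤ ∑ v ∈ A, (Mid r v).card + 2 * ∑ v ∈ A, d v := by
  have h1 := total hr A (fun v hv x hx => hA v hv x (not_adj_of_mem_Zed hx).1 (not_adj_of_mem_Zed hx).2)
    d hdeg
  have h2 : ∑ v ∈ A, (One r v).card = 0 := by
    refine Finset.sum_eq_zero fun v _ => ?_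
    rw [Finset.card_eq_zero, Finset.eq_empty_iff_forall_notMem]
    intro x hx
    obtain ⟨hx1, hno⟩ := mem_filter.1 hx
    obtain ⟨hvx, hxv⟩ := not_adj_of_mem_Zed hx1
    obtain ⟨_, w, hw, hwx⟩ := mem_Zed.1 hx1
    have h3 := heq v x hvx hxv
    have h4 : ∃ u, r x u ∧ ¬ r v u := by
      by_contra hc
      push Not at hc
      have h5 : Out r x ⊆ Out r v := by
        intro u hu
        exact mem_Out.2 (hc u (mem_Out.1 hu))
      have h6 := Finset.eq_of_subset_of_card_le h5 h3.le
      have h7 : w ∈ Out r x := by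
        rw [h6]
        exact mem_Out.2 (mem_Tri.1 hw).1
      exact hr _ _ hwx (mem_Out.1 h7)
    obtain ⟨u, hxu, hvu⟩ := h4
    refine hno ⟨u, hxu, ?_⟩
    by_contra huv
    exact htrans x v u hxv hvx hvu huv hxu
  have h8 : ∑ v ∈ A, (Bad r v).card = 0 := by
    refine Finset.sum_eq_zero fun v _ => ?_
    rw [Finset.card_eq_zero, Finset.eq_empty_iff_forall_notMem]
    intro x hx
    obtain ⟨_, hv, a, ha, b, hb, hab, hax, hbx⟩ := mem_filter.1 hx
    obtain ⟨_, y, hy, hyv⟩ := mem_Zed.1 hv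
    have ha' := mem_Tri.1 ha
    have hb' := mem_Tri.1 hb
    have hy' := mem_Tri.1 hy
    exact htrans a y b (fun h => ha'.2 y h hyv) (fun h => hy'.2 a h hax) (fun h => hy'.2 b h hbx)
      (fun h => hb'.2 y h hyv) hab
  omega

/-- Reversing all arcs does not change the number of non-adjacent pairs at distance two in `A`. -/
theorem Mid_reverse (A : Finset V) (hA : ∀ v ∈ A, ∀ x, ¬ r v x → ¬ r x v → x ∈ A) :
    ∑ v ∈ A, (Mid (fun a b => r b a) v).card = ∑ v ∈ A, (Mid r v).card := by
  have h5 := Finset.sum_card_bipartiteAbove_eq_sum_card_bipartiteBelow (s := A)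
    (t := A) (fun v x => x ∈ Mid r v)
  unfold Finset.bipartiteAbove Finset.bipartiteBelow at h5
  beta_reduce at h5
  have h6 : ∑ v ∈ A, (Mid r v).card = ∑ v ∈ A, (A.filter fun x => x ∈ Mid r v).card := by
    refine Finset.sum_congr rfl fun v hv => ?_
    congr 1
    ext x
    rw [mem_filter]
    constructor
    · intro hx
      exact ⟨hA v hv x (mem_Mid.1 hx).1 (mem_Mid.1 hx).2.1, hx⟩
    · exact fun hx => hx.2
  rw [h6, h5]
  refine Finset.sum_congr rfl fun v hv => ?_
  congr 1
  ext x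
  rw [mem_filter, mem_Mid, mem_Mid]
  constructor
  · rintro ⟨h1, h2, w, hw1, hw2⟩
    exact ⟨hA v hv x h2 h1, h1, h2, w, hw2, hw1⟩
  · rintro ⟨_, h1, h2, w, hw1, hw2⟩
    exact ⟨h1, h2, w, hw2, hw1⟩

end Pool.Agent.Lib.H93M
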