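import Mathlib
import Pool.Agent.Lib.H93M.Star

/-!
# The second neighbourhood sum and orientations of complete multipartite graphs
-/

set_option autoImplicit false

namespace Pool.Agent.Lib.H93M

open Finset
open scoped Classical

variable {V : Type} [Fintype V]

theorem ncard_filter (P : V → Prop) : {w | P w}.ncard = (univ.filter P).card := by
  rw [Set.ncard_eq_toFinset_card']
  congr 1
  ext w
  simp

theorem out_add_in_add_non {r : V → V → Prop} (hr : ∀ u v, r u v → ¬ r v u) (v : V) :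
    (Out r v).card + (Out (fun a b => r b a) v).card + {u | ¬ r v u ∧ ¬ r u v}.ncard =
      Fintype.card V := by
  obtain ⟨N, hN⟩ : ∃ N : V → Prop, ∀ u, N u ↔ (¬ r v u ∧ ¬ r u v) := ⟨_, fun _ => Iff.rfl⟩
  have h0 : {u | ¬ r v u ∧ ¬ r u v} = {u | N u} := by
    ext u
    exact (hN u).symm
  rw [h0, ncard_filter]
  have h1 : Disjoint (Out r v) (Out (fun a b => r b a) v) := by
    rw [Finset.disjoint_left]
    intro u hu hu2
    have h3 : r u v := (mem_Out (r := fun a b => r b a)).1 hu2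
    exact hr _ _ (mem_Out.1 hu) h3
  rw [← Finset.card_union_of_disjoint h1]
  have h2 : Disjoint (Out r v ∪ Out (fun a b => r b a) v) (univ.filter fun u => N u) := by
    rw [Finset.disjoint_left]
    intro u hu hu2
    have h3 := (hN u).1 (mem_filter.1 hu2).2
    rw [mem_union, mem_Out, mem_Out] at hu
    rcases hu with hu | hu
    · exact h3.1 hu
    · exact h3.2 hu
  rw [← Finset.card_union_of_disjoint h2, ← Finset.card_univ]
  congr 1
  ext u
  simp only [mem_union, mem_Out, mem_filter, mem_univ, true_and, iff_true, hN]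
  tauto

theorem multipartite (G : Digraph V) (hr : ∀ u v, G.Adj u v → ¬ G.Adj v u)
    (hEuler : ∀ v, {w | G.Adj v w}.ncard = {w | G.Adj w v}.ncard)
    (htrans : ∀ u v w, ¬ G.Adj u v → ¬ G.Adj v u → ¬ G.Adj v w → ¬ G.Adj w v → ¬ G.Adj u w)
    (a : ℕ) (ha : ∀ v, {u | ¬ G.Adj v u ∧ ¬ G.Adj u v}.ncard ≤ a)
    (A : Finset V) (hA : ∀ v ∈ A, ∀ x, ¬ G.Adj v x → ¬ G.Adj x v → x ∈ A) :
    ∑ v ∈ A, {w | G.Adj v w}.ncard ≤
      ∑ v ∈ A, {w | w ≠ v ∧ ¬ G.Adj v w ∧ ∃ u, G.Adj v u ∧ G.Adj u w}.ncard +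
      ∑ v ∈ A, (a - {u | ¬ G.Adj v u ∧ ¬ G.Adj u v}.ncard) := by
  obtain ⟨r, hrG⟩ : ∃ r : V → V → Prop, ∀ x y, r x y ↔ G.Adj x y := ⟨_, fun _ _ => Iff.rfl⟩
  have hG : G.Adj = r := by
    funext x y
    exact propext (hrG x y).symm
  rw [hG] at hr hEuler htrans ha hA ⊢
  set s : V → V → Prop := fun x y => r y x with hs
  have hOut : ∀ v, {w | r v w}.ncard = (Out r v).card := fun v => ncard_filter _
  have hIn : ∀ v, {w | r w v}.ncard = (Out s v).card := fun v => ncard_filter _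
  have hE : ∀ v, (Out r v).card = (Out s v).card := by
    intro v
    rw [← hOut, ← hIn]
    exact hEuler v
  have hsum : ∀ v, (Out r v).card + (Out s v).card + {u | ¬ r v u ∧ ¬ r u v}.ncard = Fintype.card V :=
    out_add_in_add_non hr
  have hpart : ∀ v x, ¬ r v x → ¬ r x v →
      {u | ¬ r v u ∧ ¬ r u v} = {u | ¬ r x u ∧ ¬ r u x} := by
    intro v x h1 h2
    ext u
    constructor
    · rintro ⟨h3, h4⟩
      exact ⟨htrans x v u h2 h1 h3 h4, htrans u v x h4 h3 h1 h2⟩
    · rintro ⟨h3, h4⟩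
      exact ⟨htrans v x u h1 h2 h3 h4, htrans u x v h4 h3 h2 h1⟩
  have h1 := total_multipartite (r := s) (fun u v h => hr v u h)
    (fun v x h1 h2 => by
      have e1 := hsum v
      have e2 := hsum x
      have e3 := hE v
      have e4 := hE x
      rw [hpart v x h2 h1] at e1
      omega)
    (fun u v w h1 h2 h3 h4 => htrans w v u h3 h4 h1 h2)
    A (fun v hv x h1 h2 => hA v hv x h2 h1) (fun v => (a - {u | ¬ r v u ∧ ¬ r u v}.ncard) / 2)
    (fun v w _ => by
      have e1 := hsum v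
      have e2 := hsum w
      have e3 := hE v
      have e4 := hE w
      have e5 := ha v
      have e6 := ha w
      omega)
  have h2 : ∑ v ∈ A, (Mid s v).card = ∑ v ∈ A, (Mid r v).card := Mid_reverse (r := r) A hA
  have h3 : ∑ v ∈ A, {w | w ≠ v ∧ ¬ r v w ∧ ∃ u, r v u ∧ r u w}.ncard + ∑ v ∈ A, (Tri s v).card =
      ∑ v ∈ A, (Mid r v).card + ∑ v ∈ A, {w | r v w}.ncard := by
    rw [← Finset.sum_add_distrib, ← Finset.sum_add_distrib]
    refine Finset.sum_congr rfl fun v _ => ?_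
    have e1 : (univ.filter fun w => w ≠ v ∧ ¬ r v w ∧ ∃ u, r v u ∧ r u w).card + (Tri s v).card =
        (Mid r v).card + (Out s v).card := second hr v
    have e2 : {w | w ≠ v ∧ ¬ r v w ∧ ∃ u, r v u ∧ r u w}.ncard =
        (univ.filter fun w => w ≠ v ∧ ¬ r v w ∧ ∃ u, r v u ∧ r u w).card := by
      rw [ncard_filter]
      congr 1
      ext w
      simp only [mem_filter]
    have e3 := hE v
    rw [hOut, e2]
    omega
  have h9 : 2 * ∑ v ∈ A, (a - {u | ¬ r v u ∧ ¬ r u v}.ncard) / 2 ≤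
      ∑ v ∈ A, (a - {u | ¬ r v u ∧ ¬ r u v}.ncard) := by
    rw [Finset.mul_sum]
    exact Finset.sum_le_sum fun v _ => Nat.mul_div_le _ _
  omega

end Pool.Agent.Lib.H93M
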