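import Mathlib
import Pool.Agent.Lib.H93M.Final

/-!
# The second neighbourhood sum when each vertex has at most two non-neighbours
-/

set_option autoImplicit false

namespace Pool.Agent.Lib.H93M

open Finset
open scoped Classical

variable {V : Type} [Fintype V] {r : V → V → Prop}

/-- The vertices other than `v` that are not adjacent to `v`. -/
noncomputable def Non (r : V → V → Prop) (v : V) : Finset V :=
  univ.filter fun x => x ≠ v ∧ ¬ r v x ∧ ¬ r x v

theorem mem_Non {v x : V} : x ∈ Non r v ↔ x ≠ v ∧ ¬ r v x ∧ ¬ r x v := by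
  simp [Non]

theorem Non_symm {v x : V} (h : x ∈ Non r v) : v ∈ Non r x := by
  rw [mem_Non] at h ⊢
  exact ⟨h.1.symm, h.2.2, h.2.1⟩

theorem ex_subset (hr : ∀ u v, r u v → ¬ r v u) {v w : V} (hw : w ∈ Tri r v) :
    Out r w \ Out r v ⊆ Non r v := by
  intro x hx
  rw [mem_sdiff, mem_Out, mem_Out] at hx
  have hw' := mem_Tri.1 hw
  refine mem_Non.2 ⟨?_, hx.2, hw'.2 x hx.1⟩
  rintro rfl
  exact hr _ _ hw'.1 hx.1

theorem balance (v w : V) : (Out r w \ Out r v).card + (Out r v).card =
    (Out r v \ Out r w).card + (Out r w).card := by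
  have h3 := Finset.card_sdiff_add_card_inter (Out r v) (Out r w)
  have h4 := Finset.card_sdiff_add_card_inter (Out r w) (Out r v)
  rw [Finset.inter_comm] at h4
  omega

theorem self_mem_sdiff (hr : ∀ u v, r u v → ¬ r v u) {v w : V} (hw : w ∈ Tri r v) :
    w ∈ Out r v \ Out r w := by
  rw [mem_sdiff, mem_Out, mem_Out]
  exact ⟨(mem_Tri.1 hw).1, fun h => hr _ _ h h⟩

theorem Tri_subset_Out (v : V) : Tri r v ⊆ Out r v := fun _ hw => mem_Out.2 (mem_Tri.1 hw).1

/-- If all members of `Tri r z` dominate all non-neighbours of `z`, the pairs from these to `z` are free. -/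
theorem rev_free (hr : ∀ u v, r u v → ¬ r v u) {z : V}
    (hdeg : ∀ x ∈ Non r z, (Out r x).card = (Out r z).card)
    (h2 : (Non r z).card ≤ 2) (h3 : 2 ≤ (Tri r z).card)
    (hall : ∀ w ∈ Tri r z, ∀ x ∈ Non r z, r w x)
    (hbig : ∀ y, ¬ Tri r z ⊆ Non r y) :
    Non r z ⊆ (Zed r z).filter fun x => z ∉ Zed r x ∧ ∃ u, r x u ∧ r u z := by
  intro x hx
  have hx' := mem_Non.1 hx
  obtain ⟨w0, hw0⟩ : (Tri r z).Nonempty := Finset.card_pos.1 (by omega)
  rw [mem_filter]
  refine ⟨mem_Zed.2 ⟨hx'.2.1, w0, hw0, hall w0 hw0 x hx⟩, ?_, ?_⟩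
  · intro hz
    obtain ⟨_, y, hy, hyz⟩ := mem_Zed.1 hz
    refine hbig y fun w hw => ?_
    have hw' := mem_Tri.1 hw
    have hy' := mem_Tri.1 hy
    refine mem_Non.2 ⟨?_, ?_, ?_⟩
    · rintro rfl
      exact hr _ _ hw'.1 hyz
    · intro h
      exact hy'.2 w h (hall w hw x hx)
    · intro h
      exact hw'.2 y h hyz
  · by_contra hno
    have h4 : Out r x ⊆ (Out r z \ Tri r z) ∪ (Non r z).erase x := by
      intro u hu
      rw [mem_Out] at hu
      have h5 : ¬ r u z := fun h => hno ⟨u, hu, h⟩
      rw [mem_union, mem_sdiff, mem_erase, mem_Out]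
      by_cases h6 : r z u
      · left
        exact ⟨h6, fun h => hr _ _ hu (hall u h x hx)⟩
      · right
        refine ⟨?_, mem_Non.2 ⟨?_, h6, h5⟩⟩
        · rintro rfl
          exact hr _ _ hu hu
        · rintro rfl
          exact hx'.2.2 hu
    have h7 := Finset.card_le_card h4
    have h8 := Finset.card_union_le (Out r z \ Tri r z) ((Non r z).erase x)
    have h9 := Finset.card_sdiff_add_card_eq_card (Tri_subset_Out (r := r) z)
    have h10 := Finset.card_erase_of_mem hx
    have h11 := hdeg x hx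
    have h12 := Finset.card_pos.2 ⟨x, hx⟩
    omega

/-- The star of a vertex with two non-neighbours. -/
theorem key (hr : ∀ u v, r u v → ¬ r v u) (n : ℕ)
    (hn : ∀ v, 2 * (Out r v).card + (Non r v).card + 1 = n)
    (hc : ∀ v, (Non r v).card = 0 ∨ (Non r v).card = 2) (z : V) (hz : (Non r z).card = 2) :
    ((Tri r z).filter fun w => (Non r w).card = 2).card +
      2 * ((Tri r z).filter fun w => (Non r w).card = 0).card ≤
      (Zed r z).card + ((Zed r z).filter fun x => z ∉ Zed r x ∧ ∃ u, r x u ∧ r u z).card := by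
  have hX : ∀ w ∈ Tri r z, (Out r w \ Out r z).card ≤ 2 := by
    intro w hw
    have h1 := Finset.card_le_card (ex_subset hr hw)
    omega
  have hXall : ∀ w ∈ Tri r z, (Out r w \ Out r z).card = 2 → ∀ x ∈ Non r z, r w x := by
    intro w hw h1 x hx
    have h2 := Finset.eq_of_subset_of_card_le (ex_subset hr hw) (by omega)
    rw [← h2, mem_sdiff, mem_Out] at hx
    exact hx.1
  have hU : ∀ w ∈ Tri r z, 1 ≤ (Out r z \ Out r w).card := by
    intro w hw
    exact Finset.card_pos.2 ⟨w, self_mem_sdiff hr hw⟩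
  have hdeg : ∀ x ∈ Non r z, (Out r x).card = (Out r z).card := by
    intro x hx
    have h1 : 0 < (Non r x).card := Finset.card_pos.2 ⟨z, Non_symm hx⟩
    have h2 := hn x
    have h3 := hn z
    rcases hc x with h4 | h4 <;> omega
  have hfull : ∀ w ∈ Tri r z, (Non r w).card = 0 →
      (Out r z \ Out r w).card = 1 ∧ (Out r w \ Out r z).card = 2 := by
    intro w hw h0
    have h1 := balance (r := r) z w
    have h2 := hn w
    have h3 := hn z
    have h4 := hX w hw
    have h5 := hU w hw
    omega
  have hnf : ∀ w ∈ Tri r z, (Non r w).card = 2 →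
      (Out r z \ Out r w).card = (Out r w \ Out r z).card := by
    intro w hw h0
    have h1 := balance (r := r) z w
    have h2 := hn w
    have h3 := hn z
    omega
  have hOv : Non r z ⊆ ((Zed r z).filter fun x => z ∉ Zed r x ∧ ∃ u, r x u ∧ r u z) →
      4 ≤ (Zed r z).card + ((Zed r z).filter fun x => z ∉ Zed r x ∧ ∃ u, r x u ∧ r u z).card := by
    intro h
    have h1 := Finset.card_le_card h
    have h2 := Finset.card_le_card (Finset.filter_subset
      (fun x => z ∉ Zed r x ∧ ∃ u, r x u ∧ r u z) (Zed r z))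
    omega
  rcases ((Tri r z).filter fun w => (Non r w).card = 0).eq_empty_or_nonempty with hE | ⟨w0, hw0⟩
  · rw [hE, Finset.card_empty, Nat.mul_zero, Nat.add_zero]
    have hT : (Tri r z).filter (fun w => (Non r w).card = 2) = Tri r z := by
      refine Finset.filter_true_of_mem fun w hw => ?_
      rcases hc w with h | h
      · have : w ∈ (Tri r z).filter fun w => (Non r w).card = 0 := mem_filter.2 ⟨hw, h⟩
        rw [hE] at this
        exact absurd this (Finset.notMem_empty w)
      · exact h
    rw [hT]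
    have hall2 : ∀ w ∈ Tri r z, (Non r w).card = 2 := by
      intro w hw
      rw [← hT] at hw
      exact (mem_filter.1 hw).2
    have h1 := pair_count hr (Tri r z)
    have h2 : (Tri r z).card ≤ ((Tri r z ×ˢ Tri r z).filter fun p => ¬ r p.1 p.2 ∧ ¬ r p.2 p.1).card := by
      refine Finset.card_le_card_of_injOn (fun w => (w, w)) ?_ ?_
      · intro w hw
        have hw1 : w ∈ Tri r z := hw
        show (w, w) ∈ (((Tri r z ×ˢ Tri r z).filter fun p => ¬ r p.1 p.2 ∧ ¬ r p.2 p.1 : Finset (V × V)) :
          Set (V × V))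
        rw [Finset.mem_coe, mem_filter, mem_product]
        exact ⟨⟨hw1, hw1⟩, fun h => hr _ _ h h, fun h => hr _ _ h h⟩
      · intro a _ b _ hab
        exact (Prod.mk.inj hab).1
    have h3 : ∑ w ∈ Tri r z, ((Tri r z).filter fun u => ¬ r w u).card ≤
        ∑ w ∈ Tri r z, (Out r w \ Out r z).card := by
      refine Finset.sum_le_sum fun w hw => ?_
      have h4 := card_diff (r := r) (v := z) (w := w) (d := 0) (by
        have h5 := hn w
        have h6 := hn z
        have h7 := hall2 w hw
        omega)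
      omega
    have h4 : ∑ w ∈ Tri r z, (Out r w \ Out r z).card ≤ (Tri r z).card * 2 := by
      refine le_trans (Finset.sum_le_card_nsmul _ _ 2 hX) ?_
      rw [smul_eq_mul]
    have h5 : ∑ w ∈ Tri r z, (Out r w \ Out r z).card ≤ (Zed r z).card * (Tri r z).card := by
      rw [double_count]
      refine le_trans (Finset.sum_le_card_nsmul _ _ (Tri r z).card fun x _ =>
        Finset.card_filter_le _ _) ?_
      rw [smul_eq_mul]
    have hq : (Tri r z).card ≤ 3 := by
      by_contra hlt
      push Not at hlt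
      nlinarith
    by_cases hq3 : (Tri r z).card = 3
    · have h6 : ∀ w ∈ Tri r z, (Out r w \ Out r z).card = 2 := by
        have h7 : ∑ w ∈ Tri r z, (Out r w \ Out r z).card = ∑ w ∈ Tri r z, 2 := by
          rw [Finset.sum_const, smul_eq_mul, hq3]
          rw [hq3] at h1 h2 h4
          omega
        exact (Finset.sum_eq_sum_iff_of_le hX).1 h7
      have h8 := hOv (rev_free hr hdeg hz.le (by omega) (fun w hw => hXall w hw (h6 w hw)) (by
        intro y hy
        have h9 := Finset.card_le_card hy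
        rcases hc y with h10 | h10 <;> omega))
      omega
    · have h6 : (Tri r z).card ≤ (Zed r z).card := by
        have h7 : (Tri r z).card = 0 ∨ (Tri r z).card = 1 ∨ (Tri r z).card = 2 := by omega
        rcases h7 with h7 | h7 | h7
        · omega
        · rw [h7] at h1 h2 h5 ⊢
          omega
        · rw [h7] at h1 h2 h5 ⊢
          omega
      omega
  · obtain ⟨hw0T, hw00⟩ := mem_filter.1 hw0
    obtain ⟨hU0, hX0⟩ := hfull w0 hw0T hw00
    have hU0' : ∀ w ∈ Tri r z, w ≠ w0 → r w0 w := by
      intro w hw hne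
      by_contra h
      have h1 : w ∈ Out r z \ Out r w0 := by
        rw [mem_sdiff, mem_Out, mem_Out]
        exact ⟨(mem_Tri.1 hw).1, h⟩
      exact hne (Finset.card_le_one.1 hU0.le w h1 w0 (self_mem_sdiff hr hw0T))
    have hE1 : ((Tri r z).filter fun w => (Non r w).card = 0).card ≤ 1 := by
      rw [Finset.card_le_one]
      intro a ha b hb
      by_contra hab
      obtain ⟨haT, ha0⟩ := mem_filter.1 ha
      obtain ⟨hbT, hb0⟩ := mem_filter.1 hb
      have h1 : ∀ c ∈ Tri r z, c ∈ (Tri r z).filter (fun w => (Non r w).card = 0) → c = w0 := by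
        intro c hc1 hc2
        by_contra hne
        have h2 := hU0' c hc1 hne
        have h3 := (hfull c hc1 (mem_filter.1 hc2).2).1
        have h4 : w0 ∈ Out r z \ Out r c := by
          rw [mem_sdiff, mem_Out, mem_Out]
          exact ⟨(mem_Tri.1 hw0T).1, hr _ _ h2⟩
        exact hne (Finset.card_le_one.1 h3.le w0 h4 c (self_mem_sdiff hr hc1)).symm
      exact hab ((h1 a haT ha).trans (h1 b hbT hb).symm)
    have hT2 : ∀ w ∈ (Tri r z).filter (fun w => (Non r w).card = 2),
        w ≠ w0 ∧ (Out r w \ Out r z).card = 2 ∧ ∀ u ∈ Tri r z, u ≠ w0 → u ≠ w → r w u := by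
      intro w hw
      obtain ⟨hwT, hw2⟩ := mem_filter.1 hw
      have hne : w ≠ w0 := by
        rintro rfl
        omega
      have h2 := hU0' w hwT hne
      have h4 : w0 ∈ Out r z \ Out r w := by
        rw [mem_sdiff, mem_Out, mem_Out]
        exact ⟨(mem_Tri.1 hw0T).1, hr _ _ h2⟩
      have h5 : ({w0, w} : Finset V) ⊆ Out r z \ Out r w := by
        intro u hu
        rw [mem_insert, mem_singleton] at hu
        rcases hu with rfl | rfl
        · exact h4
        · exact self_mem_sdiff hr hwT
      have h6 := Finset.card_pair (Ne.symm hne)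
      have h7 := Finset.card_le_card h5
      have h8 := hnf w hwT hw2
      have h9 := hX w hwT
      refine ⟨hne, by omega, ?_⟩
      intro u hu hu1 hu2
      by_contra h
      have h10 : u ∈ Out r z \ Out r w := by
        rw [mem_sdiff, mem_Out, mem_Out]
        exact ⟨(mem_Tri.1 hu).1, h⟩
      rw [← Finset.eq_of_subset_of_card_le h5 (by omega), mem_insert, mem_singleton] at h10
      rcases h10 with h10 | h10
      · exact hu1 h10
      · exact hu2 h10
    have hT2card : ((Tri r z).filter fun w => (Non r w).card = 2).card ≤ 1 := by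
      rw [Finset.card_le_one]
      intro a ha b hb
      by_contra hab
      obtain ⟨ha1, _, ha3⟩ := hT2 a ha
      obtain ⟨hb1, _, hb3⟩ := hT2 b hb
      exact hr _ _ (ha3 b (mem_filter.1 hb).1 hb1 (Ne.symm hab)) (hb3 a (mem_filter.1 ha).1 ha1 hab)
    have hZ : Non r z ⊆ Zed r z := by
      intro x hx
      exact mem_Zed.2 ⟨(mem_Non.1 hx).2.1, w0, hw0T, hXall w0 hw0T hX0 x hx⟩
    have hZ2 := Finset.card_le_card hZ
    rcases ((Tri r z).filter fun w => (Non r w).card = 2).eq_empty_or_nonempty with hE2 | ⟨w1, hw1⟩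
    · rw [hE2, Finset.card_empty]
      omega
    · obtain ⟨hne1, hX1, _⟩ := hT2 w1 hw1
      have h8 := hOv (rev_free hr hdeg hz.le (by
          refine le_trans (Finset.card_pair (Ne.symm hne1)).ge (Finset.card_le_card ?_)
          intro u hu
          rw [mem_insert, mem_singleton] at hu
          rcases hu with rfl | rfl
          · exact hw0T
          · exact (mem_filter.1 hw1).1) (by
          intro w hw
          refine hXall w hw ?_
          rcases hc w with h | h
          · exact (hfull w hw h).2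
          · exact (hT2 w (mem_filter.2 ⟨hw, h⟩)).2.1) (by
          intro y hy
          have h9 := Non_symm (hy hw0T)
          rw [Finset.card_eq_zero] at hw00
          rw [hw00] at h9
          exact Finset.notMem_empty _ h9))
      omega

/-- The pairs of `Zed` and the reverse pairs outside `Zed` are different pairs at distance two. -/
theorem zed_sum : ∑ v : V, (Zed r v).card +
    ∑ v : V, ((Zed r v).filter fun x => v ∉ Zed r x ∧ ∃ u, r x u ∧ r u v).card ≤
    ∑ v : V, (Mid r v).card := by
  have h4 : ∑ v : V, ((Zed r v).filter fun x => v ∉ Zed r x ∧ ∃ u, r x u ∧ r u v).card =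
      ∑ x : V, (univ.filter fun v => x ∈ Zed r v ∧ v ∉ Zed r x ∧ ∃ u, r x u ∧ r u v).card := by
    have h5 := Finset.sum_card_bipartiteAbove_eq_sum_card_bipartiteBelow (s := (univ : Finset V))
      (t := (univ : Finset V)) (fun v x => x ∈ Zed r v ∧ v ∉ Zed r x ∧ ∃ u, r x u ∧ r u v)
    unfold Finset.bipartiteAbove Finset.bipartiteBelow at h5
    rw [← h5]
    refine Finset.sum_congr rfl fun v _ => ?_
    congr 1
    ext x
    simp only [mem_filter, mem_univ, true_and]
  rw [h4, ← Finset.sum_add_distrib]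
  refine Finset.sum_le_sum fun x _ => ?_
  have h6 : Disjoint (Zed r x)
      (univ.filter fun v => x ∈ Zed r v ∧ v ∉ Zed r x ∧ ∃ u, r x u ∧ r u v) := by
    rw [Finset.disjoint_left]
    intro v hv hv2
    exact (mem_filter.1 hv2).2.2.1 hv
  rw [← Finset.card_union_of_disjoint h6]
  refine Finset.card_le_card (Finset.union_subset (Zed_subset_Mid x) ?_)
  intro v hv
  obtain ⟨_, hv2, _, u, hu1, hu2⟩ := mem_filter.1 hv
  have h7 := not_adj_of_mem_Zed hv2
  exact mem_Mid.2 ⟨h7.2, h7.1, u, hu1, hu2⟩

theorem Non_reverse (v : V) : Non (fun a b => r b a) v = Non r v := by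
  ext x
  rw [mem_Non, mem_Non]
  exact and_congr_right fun _ => and_comm

theorem Tri_reverse {v w : V} : v ∈ Tri (fun a b => r b a) w ↔ w ∈ Tri r v := by
  rw [mem_Tri, mem_Tri]
  constructor
  · rintro ⟨h1, h2⟩
    exact ⟨h1, fun u h3 h4 => h2 u h4 h3⟩
  · rintro ⟨h1, h2⟩
    exact ⟨h1, fun u h3 h4 => h2 u h4 h3⟩

/-- The vertices with `k` non-neighbours. -/
noncomputable def Cls (r : V → V → Prop) (k : ℕ) : Finset V := univ.filter fun v => (Non r v).card = k

theorem mem_Cls {k : ℕ} {v : V} : v ∈ Cls r k ↔ (Non r v).card = k := by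
  simp [Cls]

theorem Cls_reverse (k : ℕ) : Cls (fun a b => r b a) k = Cls r k := by
  ext v
  rw [mem_Cls, mem_Cls, Non_reverse]

/-- Free arcs from one class to another. -/
theorem swap_count (i j : ℕ) :
    ∑ v ∈ Cls r i, ((Tri r v).filter fun w => (Non r w).card = j).card =
      ∑ w ∈ Cls (fun a b => r b a) j, ((Tri (fun a b => r b a) w).filter
        fun v => (Non (fun a b => r b a) v).card = i).card := by
  have h5 := Finset.sum_card_bipartiteAbove_eq_sum_card_bipartiteBelow (s := Cls r i)
    (t := Cls r j) (fun v w => w ∈ Tri r v)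
  unfold Finset.bipartiteAbove Finset.bipartiteBelow at h5
  rw [Cls_reverse (r := r) j]
  have h6 : ∑ v ∈ Cls r i, ((Tri r v).filter fun w => (Non r w).card = j).card =
      ∑ v ∈ Cls r i, ((Cls r j).filter fun w => w ∈ Tri r v).card := by
    refine Finset.sum_congr rfl fun v _ => ?_
    congr 1
    ext w
    rw [mem_filter, mem_filter, mem_Cls]
    exact and_comm
  rw [h6, h5]
  refine Finset.sum_congr rfl fun w _ => ?_
  congr 1
  ext v
  rw [mem_filter, mem_filter, mem_Cls, Tri_reverse, Non_reverse]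
  exact and_comm

/-- One half of the inequality. -/
theorem half (hr : ∀ u v, r u v → ¬ r v u) (n : ℕ)
    (hn : ∀ v, 2 * (Out r v).card + (Non r v).card + 1 = n)
    (hc : ∀ v, (Non r v).card = 0 ∨ (Non r v).card = 2) :
    ∑ v ∈ Cls r 2, ((Tri r v).filter fun w => (Non r w).card = 2).card +
      2 * ∑ v ∈ Cls r 2, ((Tri r v).filter fun w => (Non r w).card = 0).card ≤
      ∑ v : V, (Mid r v).card := by
  refine le_trans ?_ (zed_sum (r := r))
  rw [Finset.mul_sum, ← Finset.sum_add_distrib, ← Finset.sum_add_distrib]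
  refine le_trans (Finset.sum_le_sum fun v hv => key hr n hn hc v (mem_Cls.1 hv)) ?_
  exact Finset.sum_le_sum_of_subset (Finset.subset_univ _)

/-- A vertex adjacent to all others sends no free arc to another such vertex. -/
theorem full_full (hr : ∀ u v, r u v → ¬ r v u) (n : ℕ)
    (hn : ∀ v, 2 * (Out r v).card + (Non r v).card + 1 = n) :
    ∑ v ∈ Cls r 0, ((Tri r v).filter fun w => (Non r w).card = 0).card = 0 := by
  refine Finset.sum_eq_zero fun v hv => ?_
  rw [Finset.card_eq_zero, Finset.eq_empty_iff_forall_notMem]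
  intro w hw
  obtain ⟨hw1, hw2⟩ := mem_filter.1 hw
  have h1 := Finset.card_le_card (ex_subset hr hw1)
  have h2 := balance (r := r) v w
  have h3 := Finset.card_pos.2 ⟨w, self_mem_sdiff hr hw1⟩
  have h4 := hn v
  have h5 := hn w
  have h6 := mem_Cls.1 hv
  omega

theorem tri_split (hc : ∀ v, (Non r v).card = 0 ∨ (Non r v).card = 2) :
    ∑ v : V, (Tri r v).card =
      ∑ v ∈ Cls r 0, ((Tri r v).filter fun w => (Non r w).card = 0).card +
      ∑ v ∈ Cls r 0, ((Tri r v).filter fun w => (Non r w).card = 2).card +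
      ∑ v ∈ Cls r 2, ((Tri r v).filter fun w => (Non r w).card = 0).card +
      ∑ v ∈ Cls r 2, ((Tri r v).filter fun w => (Non r w).card = 2).card := by
  have h1 : ∀ v, (Tri r v).card = ((Tri r v).filter fun w => (Non r w).card = 0).card +
      ((Tri r v).filter fun w => (Non r w).card = 2).card := by
    intro v
    rw [← Finset.card_filter_add_card_filter_not (s := Tri r v) (fun w => (Non r w).card = 0)]
    congr 2
    ext w
    rw [mem_filter, mem_filter]
    refine and_congr_right fun _ => ?_
    rcases hc w with h | h <;> omega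
  have h2 : ∑ v : V, (Tri r v).card = ∑ v ∈ Cls r 0, (Tri r v).card + ∑ v ∈ Cls r 2, (Tri r v).card := by
    have h3 := Finset.sum_filter_add_sum_filter_not (univ : Finset V) (fun v => (Non r v).card = 0)
      (fun v => (Tri r v).card)
    rw [← h3]
    congr 2
    ext v
    rw [mem_filter, mem_Cls]
    rcases hc v with h | h <;> simp [h]
  rw [h2]
  simp only [h1]
  rw [Finset.sum_add_distrib, Finset.sum_add_distrib]
  omega

/-- The free arcs are at most as many as the non-adjacent pairs at distance two. -/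
theorem tri_le_mid (hr : ∀ u v, r u v → ¬ r v u) (n : ℕ)
    (hn : ∀ v, 2 * (Out r v).card + (Non r v).card + 1 = n)
    (hn' : ∀ v, (Out (fun a b => r b a) v).card = (Out r v).card)
    (hc : ∀ v, (Non r v).card = 0 ∨ (Non r v).card = 2) :
    ∑ v : V, (Tri (fun a b => r b a) v).card ≤ ∑ v : V, (Mid r v).card := by
  have a1 := half hr n hn hc
  have a2 := half (r := fun a b => r b a) (fun u v h => hr v u h) n
    (fun v => by rw [hn', Non_reverse]; exact hn v) (fun v => by rw [Non_reverse]; exact hc v)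
  have a3 := Mid_reverse (r := r) (univ : Finset V) (fun v _ x _ _ => mem_univ x)
  have a4 := tri_split (r := fun a b => r b a) (fun v => by rw [Non_reverse]; exact hc v)
  have a5 := full_full (r := fun a b => r b a) (fun u v h => hr v u h) n
    (fun v => by rw [hn', Non_reverse]; exact hn v)
  have a6 := swap_count (r := r) 2 2
  have a7 := swap_count (r := r) 2 0
  omega

theorem two_missing (G : Digraph V) (hr : ∀ u v, G.Adj u v → ¬ G.Adj v u)
    (hEuler : ∀ v, {w | G.Adj v w}.ncard = {w | G.Adj w v}.ncard)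
    (hmiss : ∀ v, {u | u ≠ v ∧ ¬ G.Adj v u ∧ ¬ G.Adj u v}.ncard ≤ 2) :
    ∑ v, {w | G.Adj v w}.ncard ≤
      ∑ v, {w | w ≠ v ∧ ¬ G.Adj v w ∧ ∃ u, G.Adj v u ∧ G.Adj u w}.ncard := by
  have hnon : ∀ v, {u | u ≠ v ∧ ¬ G.Adj v u ∧ ¬ G.Adj u v}.ncard = (Non G.Adj v).card := by
    intro v
    rw [ncard_filter]
    congr 1
    ext x
    simp [mem_Non]
  have hnon2 : ∀ v, {u | ¬ G.Adj v u ∧ ¬ G.Adj u v}.ncard = (Non G.Adj v).card + 1 := by
    intro v
    rw [← hnon v]
    have h1 : {u | ¬ G.Adj v u ∧ ¬ G.Adj u v} =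
        insert v {u | u ≠ v ∧ ¬ G.Adj v u ∧ ¬ G.Adj u v} := by
      ext u
      rw [Set.mem_insert_iff, Set.mem_ofPred_eq, Set.mem_ofPred_eq]
      by_cases h : u = v
      · subst h
        exact ⟨fun _ => Or.inl rfl, fun _ => ⟨fun h => hr _ _ h h, fun h => hr _ _ h h⟩⟩
      · exact ⟨fun h2 => Or.inr ⟨h, h2⟩, fun h2 => by
          rcases h2 with h2 | h2
          · exact absurd h2 h
          · exact h2.2⟩
    rw [h1, Set.ncard_insert_of_notMem (by
      intro h
      exact h.1 rfl) (Set.toFinite _)]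
  have hOut : ∀ v, {w | G.Adj v w}.ncard = (Out G.Adj v).card := fun v => ncard_filter _
  have hIn : ∀ v, {w | G.Adj w v}.ncard = (Out (fun a b => G.Adj b a) v).card := fun v => ncard_filter _
  have hE : ∀ v, (Out (fun a b => G.Adj b a) v).card = (Out G.Adj v).card := by
    intro v
    rw [← hOut, ← hIn]
    exact (hEuler v).symm
  have hn : ∀ v, 2 * (Out G.Adj v).card + (Non G.Adj v).card + 1 = Fintype.card V := by
    intro v
    have h1 := out_add_in_add_non hr v
    have h2 := hnon2 v
    have h3 := hE v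
    omega
  have hle : ∀ v, (Non G.Adj v).card ≤ 2 := by
    intro v
    rw [← hnon v]
    exact hmiss v
  by_cases hone : ∃ v, (Non G.Adj v).card = 1
  · obtain ⟨v0, hv0⟩ := hone
    have hall : ∀ v, (Non G.Adj v).card = 1 := by
      intro v
      have h1 := hn v0
      have h2 := hn v
      have h3 := hle v
      omega
    have htrans : ∀ u v w, ¬ G.Adj u v → ¬ G.Adj v u → ¬ G.Adj v w → ¬ G.Adj w v → ¬ G.Adj u w := by
      intro u v w h1 h2 h3 h4 h5
      by_cases e1 : u = v
      · subst e1
        exact h3 h5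
      · by_cases e2 : w = v
        · subst e2
          exact h1 h5
        · have h6 : u ∈ Non G.Adj v := mem_Non.2 ⟨e1, h2, h1⟩
          have h7 : w ∈ Non G.Adj v := mem_Non.2 ⟨e2, h3, h4⟩
          have h8 := Finset.card_le_one.1 (hall v).le u h6 w h7
          subst h8
          exact hr _ _ h5 h5
    have h9 := multipartite G hr hEuler htrans 2 (fun v => by rw [hnon2, hall]) univ
      (fun v _ x _ _ => mem_univ x)
    have h10 : ∑ v : V, (2 - {u | ¬ G.Adj v u ∧ ¬ G.Adj u v}.ncard) = 0 := by
      refine Finset.sum_eq_zero fun v _ => ?_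
      rw [hnon2, hall]
      rfl
    rw [h10, Nat.add_zero] at h9
    exact h9
  · have hc : ∀ v, (Non G.Adj v).card = 0 ∨ (Non G.Adj v).card = 2 := by
      intro v
      have h1 := hle v
      have h2 : (Non G.Adj v).card ≠ 1 := fun h => hone ⟨v, h⟩
      omega
    have h1 := tri_le_mid hr _ hn hE hc
    have h3 : ∑ v, {w | w ≠ v ∧ ¬ G.Adj v w ∧ ∃ u, G.Adj v u ∧ G.Adj u w}.ncard +
        ∑ v : V, (Tri (fun a b => G.Adj b a) v).card =
        ∑ v : V, (Mid G.Adj v).card + ∑ v, {w | G.Adj v w}.ncard := by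
      rw [← Finset.sum_add_distrib, ← Finset.sum_add_distrib]
      refine Finset.sum_congr rfl fun v _ => ?_
      have e1 : (univ.filter fun w => w ≠ v ∧ ¬ G.Adj v w ∧ ∃ u, G.Adj v u ∧ G.Adj u w).card +
          (Tri (fun a b => G.Adj b a) v).card =
          (Mid G.Adj v).card + (Out (fun a b => G.Adj b a) v).card := second hr v
      have e2 : {w | w ≠ v ∧ ¬ G.Adj v w ∧ ∃ u, G.Adj v u ∧ G.Adj u w}.ncard =
          (univ.filter fun w => w ≠ v ∧ ¬ G.Adj v w ∧ ∃ u, G.Adj v u ∧ G.Adj u w).card := by
        rw [ncard_filter]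
        congr 1
        ext w
        simp only [mem_filter]
      have e3 := hE v
      rw [hOut, e2]
      omega
    omega

end Pool.Agent.Lib.H93M
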